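import Pool.Agent.H77.TL.Stm
import Pool.Agent.H77.TL.Stm2

/-! Crew TL, part C2RED (helper74). -/

set_option autoImplicit false
set_option linter.all false

namespace Pool.Agent.H74.TL

open Set MeasureTheory Pool.MP324

noncomputable section

theorem ccpos : 0 < cc := by
  unfold cc
  have := Real.log_pos (show (1:ℝ) < 2 by norm_num)
  positivity

theorem cclt : cc < 1443 / 1000 := by
  unfold cc
  have h := Real.log_two_gt_d9
  rw [div_lt_iff₀ (by linarith)]
  nlinarith

theorem lp_pos {y : ℝ} (h0 : 0 < y) : 0 < lp y := by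
  unfold MP324.lp
  exact Real.logb_pos (by norm_num) (by linarith)

theorem lp_lt {y : ℝ} (h0 : 0 < y) (h1 : y < 1) : lp y < 1 := by
  unfold MP324.lp
  rw [Real.logb_lt_iff_lt_rpow (by norm_num) (by linarith)]
  rw [Real.rpow_one]; linarith

theorem lm_neg {y : ℝ} (h0 : 0 < y) (h1 : y < 1) : lm y < 0 := by
  unfold lm
  exact Real.logb_neg (by norm_num) (by linarith) (by linarith)

theorem w_pos {m : ℝ} (hm : 0 < m) : 0 < w m := by
  unfold w
  positivity

theorem w_lt {m : ℝ} (hm : 73 / 100 ≤ m) : w m < 1 := by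
  unfold w
  rw [div_lt_one (by positivity)]
  have h : (248 / 100 : ℝ) ≤ m + 7 / 4 := by linarith
  have : (248 / 100 : ℝ) ^ 3 ≤ (m + 7 / 4) ^ 3 := by
    apply pow_le_pow_left₀ (by norm_num) h
  have h2 : (33 / 5 : ℝ) < (248 / 100 : ℝ) ^ 3 := by norm_num
  linarith

theorem Jy_pos {m y : ℝ} (hm : 0 < m) (h0 : 0 < y) (h1 : y < 1) : 0 < Jy m y := by
  have hl := lp_pos h0
  have hl1 := lp_lt h0 h1
  have hm' := lm_neg h0 h1
  have hc := ccpos
  have hap : 0 < ap m y := by
    unfold ap
    have : 0 < m + 1 - lp y := by linarith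
    positivity
  have ham : 0 < am m y := by
    unfold am
    have : 0 < m + 1 - lm y := by linarith
    positivity
  have hlt : am m y < ap m y := by
    unfold ap am
    apply one_div_lt_one_div_of_lt <;> linarith
  have hsq : am m y ^ 2 < ap m y ^ 2 := by
    apply pow_lt_pow_left₀ hlt ham.le (by norm_num)
  unfold Jy
  have e1 : 0 < lp y * ap m y := by positivity
  have e2 : lm y * am m y < 0 := mul_neg_of_neg_of_pos hm' ham
  have e3 : 0 < cc * (m + 1) * (ap m y ^ 2 - am m y ^ 2) := by
    apply mul_pos (by positivity); linarith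
  have e4 : 0 < (lp y * ap m y + cc * (m + 1) * ap m y ^ 2)
      - (lm y * am m y + cc * (m + 1) * am m y ^ 2) := by nlinarith
  have := mul_pos hm e4
  linarith

theorem fy_pos {m y : ℝ} (hm : 73 / 100 ≤ m) (h0 : 0 < y) (h1 : y < 1) : 0 < fy m y := by
  have hm0 : 0 < m := by linarith
  have hJ := Jy_pos hm0 h0 h1
  have hw := w_pos hm0
  have hw1 := w_lt hm
  have hq : 0 < qy y := by
    unfold qy
    have : y ^ 3 < y := by nlinarith [pow_pos h0 2, pow_pos h0 3]
    linarith
  unfold fy
  have a := mul_pos (sub_pos.mpr hw1) hJ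
  have b := mul_pos hw hq
  linarith

theorem rpow_two_mp {m x : ℝ} (hx : 0 < x) : (2:ℝ) ^ (mp m x) = tp m x := by
  unfold mp tp MP324.lp
  rw [Real.rpow_sub (by norm_num), Real.rpow_logb (by norm_num) (by norm_num) (by linarith)]

theorem rpow_two_mn {m x : ℝ} (hx : x < 1) : (2:ℝ) ^ (mn m x) = tm m x := by
  unfold mn tm lm
  rw [Real.rpow_sub (by norm_num), Real.rpow_logb (by norm_num) (by norm_num) (by linarith)]

/-- `fy` is antitone in `m` for `y ≤ .66` -/
theorem fy_anti (hneg : S_NEG) (hcy : S_CALy) {y a b : ℝ} (h0 : 0 < y) (h1 : y ≤ 66 / 100)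
    (ha : 0 < a) (hya : y ≤ (2:ℝ) ^ a - 1) (hab : a ≤ b) : fy b y ≤ fy a y := by
  have hder : ∀ s ∈ Icc a b, HasDerivAt (fun s => fy s y) (fmy s y) s := by
    intro s hs
    have h := hcy (fun s => s) (fun _ => y) 1 0 s (hasDerivAt_id s) (hasDerivAt_const s y)
      (by linarith [hs.1]) (by rw [abs_of_pos h0]; linarith)
    simpa using h
  have hanti : AntitoneOn (fun s => fy s y) (Icc a b) := by
    apply antitoneOn_of_deriv_nonpos (convex_Icc a b)
    · intro s hs
      exact (hder s hs).continuousAt.continuousWithinAt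
    · intro s hs
      rw [interior_Icc] at hs
      exact (hder s ⟨hs.1.le, hs.2.le⟩).differentiableAt.differentiableWithinAt
    · intro s hs
      rw [interior_Icc] at hs
      rw [(hder s ⟨hs.1.le, hs.2.le⟩).deriv]
      apply hneg s y (by linarith [hs.1]) h0 h1
      have : (2:ℝ) ^ a ≤ (2:ℝ) ^ s := Real.rpow_le_rpow_of_exponent_le (by norm_num) hs.1.le
      linarith
  exact hanti (left_mem_Icc.mpr hab) (right_mem_Icc.mpr hab) hab

/-- cross-multiplied form of `fyy/fy` nondecreasing in `m` -/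
theorem T5_cross (ht : S_T5) (hcy : S_CALy) (hcyy : S_CALyy) {y a b : ℝ} (h0 : 66 / 100 ≤ y)
    (h1 : y < 1) (ha : 73 / 100 ≤ a) (hab : a ≤ b) : fyy a y * fy b y ≤ fyy b y * fy a y := by
  have hy0 : 0 < y := by linarith
  have hfp : ∀ s ∈ Icc a b, 0 < fy s y := fun s hs => fy_pos (by linarith [hs.1]) hy0 h1
  have hder : ∀ s ∈ Icc a b, HasDerivAt (fun s => fyy s y / fy s y)
      ((fyym s y * fy s y - fyy s y * fmy s y) / fy s y ^ 2) s := by
    intro s hs
    have h := hcy (fun s => s) (fun _ => y) 1 0 s (hasDerivAt_id s) (hasDerivAt_const s y)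
      (by linarith [hs.1]) (by rw [abs_of_pos hy0]; linarith)
    have h' : HasDerivAt (fun s => fy s y) (fmy s y) s := by simpa using h
    have h2 := hcyy s y (by linarith [hs.1]) (by rw [abs_of_pos hy0]; linarith)
    exact h2.div h' (hfp s hs).ne'
  have hmono : MonotoneOn (fun s => fyy s y / fy s y) (Icc a b) := by
    apply monotoneOn_of_deriv_nonneg (convex_Icc a b)
    · intro s hs
      exact (hder s hs).continuousAt.continuousWithinAt
    · intro s hs
      rw [interior_Icc] at hs
      exact (hder s ⟨hs.1.le, hs.2.le⟩).differentiableAt.differentiableWithinAt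
    · intro s hs
      rw [interior_Icc] at hs
      rw [(hder s ⟨hs.1.le, hs.2.le⟩).deriv]
      apply div_nonneg _ (sq_nonneg _)
      exact ht s y (by linarith [hs.1]) h0 h1
  have := hmono (left_mem_Icc.mpr hab) (right_mem_Icc.mpr hab) hab
  rwa [div_le_div_iff₀ (hfp a (left_mem_Icc.mpr hab)) (hfp b (right_mem_Icc.mpr hab))] at this

/-- `fy a / fy b` is nonincreasing in `y ∈ [.66, 1)` -/
theorem ratio_anti (ht : S_T5) (hcy : S_CALy) (hcyy : S_CALyy) {y x a b : ℝ}
    (h0 : 66 / 100 ≤ y) (hyx : y ≤ x) (h1 : x < 1) (ha : 73 / 100 ≤ a) (hab : a ≤ b) :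
    fy a x / fy b x ≤ fy a y / fy b y := by
  have hfb : ∀ s ∈ Icc y x, 0 < fy b s := fun s hs =>
    fy_pos (by linarith) (by linarith [hs.1]) (by linarith [hs.2])
  have hder : ∀ s ∈ Icc y x, HasDerivAt (fun s => fy a s / fy b s)
      ((fyy a s * fy b s - fy a s * fyy b s) / fy b s ^ 2) s := by
    intro s hs
    have hs1 : |s| < 1 := by rw [abs_of_pos (by linarith [hs.1])]; linarith [hs.2]
    have h := hcy (fun _ => a) (fun s => s) 0 1 s (hasDerivAt_const s a) (hasDerivAt_id s)
      (by linarith) hs1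
    have h' : HasDerivAt (fun s => fy a s) (fyy a s) s := by simpa using h
    have g := hcy (fun _ => b) (fun s => s) 0 1 s (hasDerivAt_const s b) (hasDerivAt_id s)
      (by linarith) hs1
    have g' : HasDerivAt (fun s => fy b s) (fyy b s) s := by simpa using g
    exact h'.div g' (hfb s hs).ne'
  have hanti : AntitoneOn (fun s => fy a s / fy b s) (Icc y x) := by
    apply antitoneOn_of_deriv_nonpos (convex_Icc y x)
    · intro s hs
      exact (hder s hs).continuousAt.continuousWithinAt
    · intro s hs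
      rw [interior_Icc] at hs
      exact (hder s ⟨hs.1.le, hs.2.le⟩).differentiableAt.differentiableWithinAt
    · intro s hs
      rw [interior_Icc] at hs
      rw [(hder s ⟨hs.1.le, hs.2.le⟩).deriv]
      apply div_nonpos_of_nonpos_of_nonneg _ (sq_nonneg _)
      have := T5_cross ht hcy hcyy (y := s) (by linarith [hs.1]) (by linarith [hs.2]) ha hab
      linarith
  exact hanti (left_mem_Icc.mpr hyx) (right_mem_Icc.mpr hyx) hyx

theorem E_nonneg {s : ℝ} (hs : 1 ≤ s) : 0 ≤ E (Real.logb 2 s) := by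
  have := Real.logb_nonneg (b := 2) (by norm_num) hs
  unfold E
  positivity

theorem EE_sub_nonneg {a b : ℝ} (ha : 1 ≤ a) (hab : a ≤ b) : 0 ≤ EE b - EE a := by
  have hcont : ContinuousOn (fun s : ℝ => E (Real.logb 2 s)) (Ici 1) := by
    intro s hs
    have hs1 : (1:ℝ) ≤ s := hs
    have h1 : ContinuousAt (fun s : ℝ => Real.logb 2 s) s := by
      unfold Real.logb
      exact (Real.continuousAt_log (by linarith)).div_const _
    apply ContinuousAt.continuousWithinAt
    unfold E
    exact (h1.add continuousAt_const).mul ((h1.add continuousAt_const).sqrt)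
  have hi : ∀ c d : ℝ, 1 ≤ c → c ≤ d →
      IntervalIntegrable (fun s : ℝ => E (Real.logb 2 s)) volume c d := by
    intro c d hc hcd
    apply ContinuousOn.intervalIntegrable
    rw [uIcc_of_le hcd]
    exact hcont.mono (fun s hs => le_trans hc hs.1)
  unfold EE
  rw [intervalIntegral.integral_interval_sub_left (hi 1 b le_rfl (ha.trans hab)) (hi 1 a le_rfl ha)]
  apply intervalIntegral.integral_nonneg hab
  intro s hs
  exact E_nonneg (ha.trans hs.1)

theorem t_C2RED : S_C2RED := by
  intro hneg ht hx5 hav hcm hcy hcyy m x y hm hx0 hx1 hxm hy0 hyx hym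
  have hy1 : y < 1 := by linarith
  have hlp := lp_pos hx0
  have hlm := lm_neg hx0 hx1
  have hmp : 0 < mp m x := by
    by_contra hcon
    push Not at hcon
    have : (2:ℝ) ^ (mp m x) ≤ 1 := Real.rpow_le_one_of_one_le_of_nonpos (by norm_num) hcon
    linarith
  have hmpn : mp m x ≤ mn m x := by unfold mp mn; linarith
  have htp1 : 1 ≤ tp m x := by rw [← rpow_two_mp hx0]; linarith
  have ht0 : 0 < (2:ℝ) ^ m := by positivity
  have htpt : tp m x < tt m := by
    unfold tp tt
    rw [div_lt_iff₀ (by linarith)]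
    nlinarith
  have httm : tt m < tm m x := by
    unfold tm tt
    rw [lt_div_iff₀ (by linarith)]
    nlinarith
  obtain ⟨hA, hB⟩ := hav m x hm hx0 hx1 hxm
  have hA0 : 0 ≤ (EE (tt m) - EE (tp m x)) / (tt m - tp m x) :=
    div_nonneg (EE_sub_nonneg htp1 htpt.le) (by linarith)
  set A := (EE (tt m) - EE (tp m x)) / (tt m - tp m x) with hAdef
  set B := (EE (tm m x) - EE (tt m)) / (tm m x - tt m) with hBdef
  have hsq : 0 < Real.sqrt (m + 15) := Real.sqrt_pos.mpr (by linarith)
  by_cases hy : y ≤ 66 / 100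
  · -- small y
    have hAB : A ≤ B := by
      have h1 : lp x / x ≤ - lm x / x := by
        apply div_le_div_of_nonneg_right _ hx0.le
        have : lp x + lm x ≤ 0 := by
          unfold MP324.lp lm
          rw [← Real.logb_mul (by linarith) (by linarith)]
          apply Real.logb_nonpos (by norm_num) (by nlinarith) (by nlinarith)
        linarith
      have h2 : m + 1 - cc + lp x / x ≤ m + 1 - cc - lm x / x := by
        have : - lm x / x = - (lm x / x) := by ring
        linarith
      have := mul_le_mul_of_nonneg_left h2 hsq.le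
      linarith
    have h1 : fy (mn m x) y ≤ fy (mp m x) y := fy_anti hneg hcy hy0 hy hmp hym hmpn
    have h2 : 0 < fy (mp m x) y := by
      have h3 := fy_anti hneg hcy hy0 hy hmp hym (le_max_left (mp m x) (73 / 100))
      have h4 := fy_pos (m := max (mp m x) (73 / 100)) (le_max_right _ _) hy0 hy1
      linarith
    calc A * fy (mn m x) y ≤ A * fy (mp m x) y := mul_le_mul_of_nonneg_left h1 hA0
      _ ≤ B * fy (mp m x) y := mul_le_mul_of_nonneg_right hAB h2.le
  · push Not at hy
    have hmp73 : 73 / 100 ≤ mp m x := by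
      -- 2^mp ≥ 1.66 ≥ 2^.73
      by_contra hcon
      push Not at hcon
      have h1 : (2:ℝ) ^ (mp m x) < (2:ℝ) ^ (73 / 100 : ℝ) :=
        Real.rpow_lt_rpow_of_exponent_lt (by norm_num) hcon
      have h2 : (2:ℝ) ^ (73 / 100 : ℝ) ≤ 166 / 100 := by
        have h3 : ((2:ℝ) ^ (73 / 100 : ℝ)) ^ (100:ℕ) = (2:ℝ) ^ (73:ℕ) := by
          rw [← Real.rpow_natCast, ← Real.rpow_mul (by norm_num), ← Real.rpow_natCast]
          norm_num
        have h4 : ((2:ℝ) ^ (73 / 100 : ℝ)) ^ (100:ℕ) ≤ (166 / 100 : ℝ) ^ (100:ℕ) := by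
          rw [h3]; norm_num
        exact le_of_pow_le_pow_left₀ (by norm_num) (by norm_num) h4
      linarith
    have hmpn0 : 73 / 100 ≤ mn m x := hmp73.trans hmpn
    have hr := ratio_anti ht hcy hcyy hy.le hyx hx1 hmp73 hmpn
    have hfa := fy_pos hmpn0 hy0 hy1
    have hfx := fy_pos hmpn0 hx0 hx1
    have hm73 : 73 / 100 < m := by unfold mp at hmp73; linarith
    have hc2 := hx5 m x hmp73 (by linarith) hx1
    have hcl := cclt
    have hP : 0 < m + 1 - cc + lp x / x := by
      have : 0 < lp x / x := by positivity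
      linarith
    have hQ : 0 < m + 1 - cc - lm x / x := by
      have : lm x / x < 0 := div_neg_of_neg_of_pos hlm hx0
      linarith
    -- P * fy mn x ≤ Q * fy mp x → P ≤ Q * ratio x ≤ Q * ratio y
    have h1 : (m + 1 - cc + lp x / x) ≤ (m + 1 - cc - lm x / x) * (fy (mp m x) x / fy (mn m x) x) := by
      rw [mul_div_assoc', le_div_iff₀ hfx]
      exact hc2
    have h2 : (m + 1 - cc + lp x / x) ≤ (m + 1 - cc - lm x / x) * (fy (mp m x) y / fy (mn m x) y) :=
      h1.trans (mul_le_mul_of_nonneg_left hr hQ.le)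
    have h3 : (m + 1 - cc + lp x / x) * fy (mn m x) y ≤ (m + 1 - cc - lm x / x) * fy (mp m x) y := by
      rw [mul_div_assoc', le_div_iff₀ hfa] at h2
      exact h2
    have hfpy := fy_pos hmp73 hy0 hy1
    calc A * fy (mn m x) y ≤ Real.sqrt (m + 15) * (m + 1 - cc + lp x / x) * fy (mn m x) y :=
          mul_le_mul_of_nonneg_right hA hfa.le
      _ = Real.sqrt (m + 15) * ((m + 1 - cc + lp x / x) * fy (mn m x) y) := by ring
      _ ≤ Real.sqrt (m + 15) * ((m + 1 - cc - lm x / x) * fy (mp m x) y) :=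
          mul_le_mul_of_nonneg_left h3 hsq.le
      _ = Real.sqrt (m + 15) * (m + 1 - cc - lm x / x) * fy (mp m x) y := by ring
      _ ≤ B * fy (mp m x) y := mul_le_mul_of_nonneg_right hB hfpy.le

end

end Pool.Agent.H74.TL
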